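import Pool.Agent.Lib.MP_70593a_al.Maj2
import Pool.Agent.Lib.MP_70593a_al.Four2

set_option autoImplicit false

namespace Pool.Agent.Results.MP_70593a_al.ArityThreshold

open Pool.Agent.Lib.MP_70593a_al in
/-- The loop lemma for near-unanimity operations of arity `n` on arbitrary sets holds exactly for
`n = 3`. -/
theorem result (n : ℕ) (hn : 3 ≤ n) :
    (∀ (A : Type) (R : A → A → Prop) (S : Finset (A × A)),
      (∀ p ∈ S, R p.1 p.2) →
      (∀ p ∈ S, (∃ q ∈ S, q.2 = p.1) ∧ (∃ q ∈ S, q.1 = p.2)) →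
      (∃ (k : ℕ) (v : ℕ → A) (e : ℕ → ℤ), v k = v 0 ∧
        (∀ i < k, (e i = 1 ∧ (v i, v (i + 1)) ∈ S) ∨ (e i = -1 ∧ (v (i + 1), v i) ∈ S)) ∧
        ∑ i ∈ Finset.range k, e i = 1) →
      ∀ f : (Fin n → A) → A,
        (∀ (x y : A) (i : Fin n), f (Function.update (fun _ => x) i y) = x) →
        (∀ x y : Fin n → A, (∀ i, R (x i) (y i)) → R (f x) (f y)) →
        ∃ a : A, R a a) ↔ n = 3 := by
  classical
  constructor
  · intro H
    by_contra h3
    obtain ⟨A, R, a, a', c, c', r1, r2, r3, r4, r5, r6, hl, hf⟩ := exists_four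
    obtain ⟨f, hnu, hc⟩ := hf n (by omega)
    let S : Finset (A × A) := {(a, a'), (a', a), (c, c'), (c', c), (a, c), (a, c')}
    have hS : ∀ p ∈ S, p = (a, a') ∨ p = (a', a) ∨ p = (c, c') ∨ p = (c', c) ∨ p = (a, c) ∨
        p = (a, c') := by
      intro p hp
      simpa only [S, Finset.mem_insert, Finset.mem_singleton] using hp
    have m1 : (a, a') ∈ S := by simp [S]
    have m2 : (a', a) ∈ S := by simp [S]
    have m3 : (c, c') ∈ S := by simp [S]
    have m4 : (c', c) ∈ S := by simp [S]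
    have m5 : (a, c) ∈ S := by simp [S]
    have m6 : (a, c') ∈ S := by simp [S]
    obtain ⟨z, hz⟩ := H A R S
      (fun p hp => by rcases hS p hp with rfl | rfl | rfl | rfl | rfl | rfl <;> assumption)
      (fun p hp => by
        rcases hS p hp with rfl | rfl | rfl | rfl | rfl | rfl
        · exact ⟨⟨_, m2, rfl⟩, ⟨_, m2, rfl⟩⟩
        · exact ⟨⟨_, m1, rfl⟩, ⟨_, m1, rfl⟩⟩
        · exact ⟨⟨_, m4, rfl⟩, ⟨_, m4, rfl⟩⟩
        · exact ⟨⟨_, m3, rfl⟩, ⟨_, m3, rfl⟩⟩
        · exact ⟨⟨_, m2, rfl⟩, ⟨_, m3, rfl⟩⟩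
        · exact ⟨⟨_, m2, rfl⟩, ⟨_, m4, rfl⟩⟩)
      ⟨3, fun i => if i = 1 then c else if i = 2 then c' else a,
        fun i => if i = 2 then -1 else 1, by simp, fun i hi => by
          interval_cases i
          · exact Or.inl ⟨by simp, by simpa using m5⟩
          · exact Or.inl ⟨by simp, by simpa using m3⟩
          · exact Or.inr ⟨by simp, by simpa using m6⟩, by simp [Finset.sum_range_succ]⟩ f hnu hc
    exact hl z hz
  · rintro rfl A R S hS hs ⟨k, v, e, hv, he, hk⟩ f hnu hc
    have h : Maj R fun a b c => f ![a, b, c] := by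
      refine ⟨fun x y => ?_, fun x y => ?_, fun x y => ?_, fun a a' b b' c c' h1 h2 h3 =>
        hc _ _ fun i => by fin_cases i <;> assumption⟩
      · refine (congrArg f ?_).trans (hnu x y 2)
        funext i
        fin_cases i <;> rfl
      · refine (congrArg f ?_).trans (hnu x y 1)
        funext i
        fin_cases i <;> rfl
      · refine (congrArg f ?_).trans (hnu x y 0)
        funext i
        fin_cases i <;> rfl
    exact h.loop S hS hs k v e hv he hk

end Pool.Agent.Results.MP_70593a_al.ArityThreshold
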