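import Pool.Agent.Lib.MP_70593a_al.Fallback

set_option autoImplicit false

namespace Pool.Agent.Results.MP_70593a_al.LooplessNU

open Pool.Agent.Lib.MP_70593a_al in
/-- A loopless relation on the natural numbers which contains an explicit four-vertex weakly
connected smooth digraph of algebraic length one and is compatible with a near-unanimity
operation of every arity at least five. -/
theorem result :
    ∃ (R : ℕ → ℕ → Prop) (V : Finset ℕ) (E : Finset (ℕ × ℕ)),
      V = {0, 1, 2, 3} ∧ E = {(0, 1), (1, 0), (2, 3), (3, 2), (0, 2), (0, 3)} ∧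
      (∀ p ∈ E, p.1 ∈ V ∧ p.2 ∈ V) ∧
      (∀ v ∈ V, (∃ u ∈ V, (u, v) ∈ E) ∧ (∃ w ∈ V, (v, w) ∈ E)) ∧
      (∀ u ∈ V, ∀ v ∈ V,
        Relation.ReflTransGen (fun a b : ℕ => (a, b) ∈ E ∨ (b, a) ∈ E) u v) ∧
      (∃ (k : ℕ) (v : Fin (k + 1) → ℕ) (fwd : Fin k → Bool), (∀ i, v i ∈ V) ∧
        v (Fin.last k) = v 0 ∧
        (∀ i : Fin k, fwd i = true → (v i.castSucc, v i.succ) ∈ E) ∧
        (∀ i : Fin k, fwd i = false → (v i.succ, v i.castSucc) ∈ E) ∧
        ((Finset.univ.filter fun i => fwd i = true).card : ℤ) -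
          ((Finset.univ.filter fun i => fwd i = false).card : ℤ) = 1) ∧
      (∀ p ∈ E, R p.1 p.2) ∧
      (∀ a, (∃ b, R b a) ∧ ∃ b, R a b) ∧
      (∀ n : ℕ, 5 ≤ n → ∃ f : (Fin n → ℕ) → ℕ,
        (∀ (x y : ℕ) (i : Fin n), f (fun j => if j = i then y else x) = x) ∧
        ∀ a b : Fin n → ℕ, (∀ i, R (a i) (b i)) → R (f a) (f b)) ∧
      ∀ a, ¬ R a a := by
  obtain ⟨R, h1, h2, h3, h4, h5, h6, hs, ⟨f, hnu, hf⟩, hl⟩ := exists_counter_nat
  refine ⟨R, _, _, rfl, rfl, by decide, by decide, ?_,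
    ⟨3, ![0, 2, 3, 0], ![true, true, false], by decide, by decide, by decide, by decide,
      by decide⟩, ?_, hs, nu_lift R f hnu hf, hl⟩
  · have key : ∀ v ∈ ({0, 1, 2, 3} : Finset ℕ),
        Relation.ReflTransGen (fun a b : ℕ =>
          (a, b) ∈ ({(0, 1), (1, 0), (2, 3), (3, 2), (0, 2), (0, 3)} : Finset (ℕ × ℕ)) ∨
          (b, a) ∈ ({(0, 1), (1, 0), (2, 3), (3, 2), (0, 2), (0, 3)} : Finset (ℕ × ℕ))) 0 v ∧
        Relation.ReflTransGen (fun a b : ℕ =>
          (a, b) ∈ ({(0, 1), (1, 0), (2, 3), (3, 2), (0, 2), (0, 3)} : Finset (ℕ × ℕ)) ∨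
          (b, a) ∈ ({(0, 1), (1, 0), (2, 3), (3, 2), (0, 2), (0, 3)} : Finset (ℕ × ℕ))) v 0 := by
      intro v hv
      simp only [Finset.mem_insert, Finset.mem_singleton] at hv
      rcases hv with rfl | rfl | rfl | rfl
      · exact ⟨.refl, .refl⟩
      · exact ⟨.single (by decide), .single (by decide)⟩
      · exact ⟨.single (by decide), .single (by decide)⟩
      · exact ⟨.single (by decide), .single (by decide)⟩
    intro u hu v hv
    exact (key u hu).2.trans (key v hv).1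
  · intro p hp
    simp only [Finset.mem_insert, Finset.mem_singleton] at hp
    rcases hp with rfl | rfl | rfl | rfl | rfl | rfl <;> assumption

end Pool.Agent.Results.MP_70593a_al.LooplessNU
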